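import Pool.Agent.helper4.QS.Spec

/-!
# qs:DBL. The difference of the powers `k` and `-k`
-/

open scoped BigOperators ComplexOrder ComplexConjugate Topology

namespace Pool.Agent.QS

open Pool.Agent.helper86.CM Filter

theorem DBL_rec {B : Lat 1 ≃ₗ[ℤ] Lat 1} {t : ℤ} (h : Cat B t) (e : ℤ) (n : Lat 1) :
    pw B (e + 1 + 1) n = t • pw B (e + 1) n - pw B e n := by
  rw [pw_succ, pw_succ, h.ch]

theorem DBL : DBL_stmt := by
  intro B t h k n
  obtain ⟨s, hs⟩ := h.ev
  refine ⟨B n - s • n, ?_⟩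
  have key : ∀ k : ℕ, (pw B (k : ℤ) n - pw B (-(k : ℤ)) n = (2 * lu t k) • (B n - s • n)) ∧
      (pw B ((k + 1 : ℕ) : ℤ) n - pw B (-((k + 1 : ℕ) : ℤ)) n =
        (2 * lu t (k + 1)) • (B n - s • n)) := by
    intro k
    induction k with
    | zero =>
      have e0 : lu t 0 = 0 := rfl
      have e1 : lu t 1 = 1 := rfl
      have e2 := DBL_rec h (-1) n
      have e3 : (-1 : ℤ) + 1 = 0 := by norm_num
      rw [e3, zero_add, pw_zero, pw_one] at e2
      refine ⟨?_, ?_⟩
      · simp only [Nat.cast_zero, neg_zero, e0, mul_zero, zero_smul, sub_self]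
      · simp only [zero_add, Nat.cast_one, e1, pw_one]
        have e4 : pw B (-1) n = t • n - B n := by
          rw [e2]
          abel
        rw [e4, hs]
        funext i
        simp only [Pi.sub_apply, Pi.smul_apply, smul_eq_mul]
        ring
    | succ k ih =>
      refine ⟨ih.2, ?_⟩
      have a1 := DBL_rec h (k : ℤ) n
      have a2 := DBL_rec h (-((k : ℤ) + 1 + 1)) n
      have a3 : -((k : ℤ) + 1 + 1) + 1 + 1 = -(k : ℤ) := by ring
      have a4 : -((k : ℤ) + 1 + 1) + 1 = -((k : ℤ) + 1) := by ring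
      rw [a3, a4] at a2
      have i1 := ih.1
      have i2 := ih.2
      push_cast at i2 ⊢
      have e5 : lu t (k + 1 + 1) = t * lu t (k + 1) - lu t k := rfl
      have a5 : pw B (-((k : ℤ) + 1 + 1)) n =
          t • pw B (-((k : ℤ) + 1)) n - pw B (-(k : ℤ)) n := by
        rw [a2]
        abel
      rw [a1, a5, e5]
      have e6 : t • pw B ((k : ℤ) + 1) n - pw B (k : ℤ) n -
          (t • pw B (-((k : ℤ) + 1)) n - pw B (-(k : ℤ)) n) =
          t • (pw B ((k : ℤ) + 1) n - pw B (-((k : ℤ) + 1)) n) -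
            (pw B (k : ℤ) n - pw B (-(k : ℤ)) n) := by
        rw [smul_sub]
        abel
      rw [e6, i1, i2]
      funext i
      simp only [Pi.sub_apply, Pi.smul_apply, smul_eq_mul]
      ring
  exact (key k).1

end Pool.Agent.QS
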