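import Pool.Agent.helper4.QS.Spec

/-!
# qs:LUL. Facts on the larger root
-/

open scoped BigOperators ComplexOrder ComplexConjugate Topology

namespace Pool.Agent.QS

open Pool.Agent.helper86.CM Filter

theorem LUL_sqrt (t : ℤ) (ht : 2 < t) : Real.sqrt ((t : ℝ) ^ 2 - 4) ^ 2 = (t : ℝ) ^ 2 - 4 := by
  have h : (2 : ℝ) < t := by exact_mod_cast ht
  exact Real.sq_sqrt (by nlinarith)

theorem LUL_root (t : ℤ) (ht : 2 < t) : lam t ^ 2 = t * lam t - 1 := by
  have h := LUL_sqrt t ht
  unfold lam
  linear_combination (1 / 4 : ℝ) * h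

theorem LUL_two (t : ℤ) (ht : 2 < t) : 2 < lam t := by
  have h3 : (3 : ℝ) ≤ t := by exact_mod_cast ht
  have h : 1 < Real.sqrt ((t : ℝ) ^ 2 - 4) := Real.lt_sqrt_of_sq_lt (by nlinarith)
  unfold lam
  linarith

theorem LUL : LUL_stmt := by
  intro t ht
  have h2 := LUL_two t ht
  have hr := LUL_root t ht
  set l := lam t with hl
  have hl0 : l ≠ 0 := by linarith
  have hx : l * l⁻¹ = 1 := mul_inv_cancel₀ hl0
  set x := l⁻¹ with hxdef
  have hx0 : 0 < x := by rw [hxdef]; positivity
  have hx2 : 2 * x < 1 := by nlinarith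
  have hsum : l + x = t := by
    have h1 : l * (l + x) = l * t := by linear_combination hr + hx
    exact mul_left_cancel₀ hl0 h1
  have hxr : x ^ 2 = t * x - 1 := by
    rw [← hsum]
    linear_combination (-1 : ℝ) * hx
  have h22 : ∀ k : ℕ, x * (lu t (k + 1) : ℝ) = lu t k + x ^ (k + 1) := by
    intro k
    induction k with
    | zero => simp [lu]
    | succ k ih =>
      have e : (lu t (k + 1 + 1) : ℝ) = t * lu t (k + 1) - lu t k := by
        have : lu t (k + 1 + 1) = t * lu t (k + 1) - lu t k := rfl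
        rw [this]
        push_cast
        ring
      rw [e]
      linear_combination (-(lu t (k + 1) : ℝ)) * hxr + x * ih
  have h23 : ∀ k : ℕ, (lu t (k + 1) : ℝ) = l * lu t k + x ^ k := by
    intro k
    have h := h22 k
    have h1 : x * (lu t (k + 1) : ℝ) = x * (l * lu t k + x ^ k) := by
      rw [h]
      linear_combination (-(lu t k : ℝ)) * hx
    exact mul_left_cancel₀ hx0.ne' h1
  have h24 : ∀ k : ℕ, (lu t k : ℝ) * (l - x) = l ^ k - x ^ k := by
    intro k
    induction k with
    | zero => simp [lu]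
    | succ k ih =>
      rw [h23]
      linear_combination l * ih
  refine ⟨⟨h2, hsum, ?_⟩, h22, ?_, ?_⟩
  · intro h4
    have h4' : (4 : ℝ) ≤ t := by exact_mod_cast h4
    have h : 34 / 10 < Real.sqrt ((t : ℝ) ^ 2 - 4) := Real.lt_sqrt_of_sq_lt (by nlinarith)
    rw [hl]
    unfold lam
    linarith
  · intro k
    refine ⟨?_, ?_⟩
    · induction k with
      | zero => simp [lu]
      | succ k ih =>
        rw [h23, pow_succ]
        have : 0 < x ^ (k + 1) := pow_pos hx0 _
        nlinarith
    · have h := h24 (k + 1)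
      have hk : 0 < l ^ k := pow_pos (by linarith) k
      have hk' : 0 < x ^ (k + 1) := pow_pos hx0 _
      have h5 : 0 < l - x := by linarith
      have h6 : (lu t (k + 1) : ℝ) * (l - x) ≤ 2 * l ^ k * (l - x) := by
        rw [h, pow_succ]
        nlinarith
      exact le_of_mul_le_mul_right h6 h5
  · intro k
    have key : ∀ k : ℕ, (∃ v : ℤ, l ^ k + x ^ k = v) ∧ ∃ v : ℤ, l ^ (k + 1) + x ^ (k + 1) = v := by
      intro k
      induction k with
      | zero => exact ⟨⟨2, by norm_num⟩, ⟨t, by simpa using hsum⟩⟩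
      | succ k ih =>
        obtain ⟨⟨v, hv⟩, w, hw⟩ := ih
        refine ⟨⟨w, hw⟩, t * w - v, ?_⟩
        push_cast
        linear_combination l ^ k * hr + x ^ k * hxr + (t : ℝ) * hw - hv
    exact (key k).1

end Pool.Agent.QS
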